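import Pool.Agent.Lib.helper6.SmDf

namespace Pool.Agent.Results.MP_ecebd1_co.Unbounded

open Pool.Agent.H6SmDf

theorem result (k : ℤ) : ∃ (V : Type) (_ : Fintype V) (G : SimpleGraph V),
    G ≠ ⊥ ∧ G.IsBipartite ∧ k ≤ (df G : ℤ) - ⌈(sm G : ℚ) / 2⌉ := by
  obtain ⟨V, iV, G, h0, hb, hs, hd⟩ := main (2 * k.toNat + 1)
  refine ⟨V, iV, G, h0, hb, ?_⟩
  have : ⌈(sm G : ℚ) / 2⌉ = (k.toNat : ℤ) + 1 := by
    rw [hs, show ((2 * k.toNat + 1 + 1 : ℕ) : ℚ) / 2 = (((k.toNat : ℤ) + 1 : ℤ) : ℚ) by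
      push_cast; ring, Int.ceil_intCast]
  rw [this]
  omega

end Pool.Agent.Results.MP_ecebd1_co.Unbounded
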